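import Pool.Agent.Helper75.KM.Stmts

/-!
# KM: module EXT, the extremal choice of scales
-/

set_option autoImplicit false

namespace Pool.Agent.Helper75.KM

open Pool.Agent.Helper8.Kak Pool.Agent.Helper89.KakGeo

theorem st_EXT (hR : ST_RELAB) : ST_EXT := by
  classical
  intro Ω _ p hp r N T η hη
  set Φ : (Ω → Fin (N + 1)) → ℝ := fun J =>
    η * Real.log 2 * ∑ ω, p ω * ((J ω : ℕ) : ℝ)
      - Ent p (r ⊓ Setoid.ker (fun ω => QQ (J ω) (T ω))) with hΦ
  obtain ⟨J, hJ⟩ := Finite.exists_max Φ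
  refine ⟨J, ?_, ?_⟩
  · have h0 := hJ (fun _ => 0)
    have e : Ent p (r ⊓ Setoid.ker (fun ω => QQ (0 : Fin (N + 1)) (T ω))) = Ent p r := by
      refine Ent_congr' hp fun ω ω' _ _ => ⟨fun h => h.1, fun h => ⟨h, ?_⟩⟩
      show QQ (0 : Fin (N + 1)) (T ω) = QQ (0 : Fin (N + 1)) (T ω')
      unfold QQ
      have g : ∀ t : Fin (2 ^ N), (t : ℕ) / 2 ^ (N - ((0 : Fin (N + 1)) : ℕ)) = 0 := by
        intro t
        exact Nat.div_eq_of_lt (by simp)
      rw [g, g]
    simp only [hΦ] at h0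
    rw [e] at h0
    simp only [Fin.val_zero, Nat.cast_zero, mul_zero, Finset.sum_const_zero] at h0
    linarith
  · intro ω0 h0 s hs u
    set Q : Ω → ℕ × ℕ := fun ω => QQ (J ω) (T ω) with hQ
    set c0 := cls p (r ⊓ Setoid.ker Q) ω0 with hc0
    obtain ⟨B, hB⟩ : ∃ B : Set Ω, ∀ ω, ω ∈ B ↔ ((r ⊓ Setoid.ker Q) ω0 ω ∧
      (T ω : ℕ) / 2 ^ (N - ((J ω0 : ℕ) + s)) = u) := ⟨{ω | (r ⊓ Setoid.ker Q) ω0 ω ∧
      (T ω : ℕ) / 2 ^ (N - ((J ω0 : ℕ) + s)) = u}, fun _ => Iff.rfl⟩
    set b := (∑ ω, if ω ∈ B then p ω else 0) with hb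
    have eb : (∑ ω, if (r ⊓ Setoid.ker Q) ω0 ω ∧
        (T ω : ℕ) / 2 ^ (N - ((J ω0 : ℕ) + s)) = u then p ω else 0) = b := by
      rw [hb]
      exact Finset.sum_congr rfl fun ω _ => if_congr (hB ω).symm rfl rfl
    have goal' : b ≤ Real.exp 1 * (2 : ℝ) ^ (-(η * s)) * c0 := by
      have hc : 0 < c0 := cls_pos hp.1 _ h0
      have hb0 : 0 ≤ b := Finset.sum_nonneg fun ω _ => by
        split_ifs
        exacts [hp.1 _, le_rfl]
      rcases hb0.eq_or_lt with hb1 | hb1
      · rw [← hb1]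
        positivity
      set w : ℕ × ℕ := ((J ω0 : ℕ) + s, u) with hw
      have hrel := hR Ω (ℕ × ℕ) p hp r Q B w ω0 b hb hb1 (fun ω hω => ((hB ω).1 hω).1)
      set J' : Ω → Fin (N + 1) := fun ω => if ω ∈ B then ⟨(J ω0 : ℕ) + s, by omega⟩ else J ω with hJ'
      have hmax := hJ J'
      have eQ : (fun ω => QQ (J' ω) (T ω)) = (fun ω => if ω ∈ B then w else Q ω) := by
        funext ω
        by_cases h : ω ∈ B
        · simp only [hJ', if_pos h, hw]
          unfold QQ
          have h2 : (T ω : ℕ) / 2 ^ (N - ((J ω0 : ℕ) + s)) = u := ((hB ω).1 h).2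
          simp only [h2]
        · simp only [hJ', if_neg h, hQ]
      have eS : ∑ ω, p ω * ((J' ω : ℕ) : ℝ) = ∑ ω, p ω * ((J ω : ℕ) : ℝ) + s * b := by
        rw [hb, Finset.mul_sum, ← Finset.sum_add_distrib]
        refine Finset.sum_congr rfl fun ω _ => ?_
        by_cases h : ω ∈ B
        · have h2 : Q ω0 = Q ω := ((hB ω).1 h).1.2
          have h3 : (J ω0 : ℕ) = (J ω : ℕ) := congrArg Prod.fst h2
          simp only [hJ', if_pos h, ← h3]
          push_cast
          ring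
        · simp only [hJ', if_neg h]
          ring
      simp only [hΦ] at hmax
      rw [eQ, eS] at hmax
      have h5 : η * Real.log 2 * (s * b) ≤ b * (Real.log (c0 / b) + 1) := by
        have e6 : η * Real.log 2 * (∑ ω, p ω * ((J ω : ℕ) : ℝ) + s * b)
          = η * Real.log 2 * ∑ ω, p ω * ((J ω : ℕ) : ℝ) + η * Real.log 2 * (s * b) := by ring
        rw [e6] at hmax
        rw [← hQ] at hmax
        linarith
      have h6 : η * Real.log 2 * s ≤ Real.log (c0 / b) + 1 := by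
        have e7 : η * Real.log 2 * (s * b) = b * (η * Real.log 2 * s) := by ring
        rw [e7] at h5
        exact le_of_mul_le_mul_left h5 hb1
      have h7 : Real.log b ≤ Real.log (Real.exp 1 * (2 : ℝ) ^ (-(η * s)) * c0) := by
        rw [Real.log_mul (by positivity) hc.ne', Real.log_mul (by positivity) (by positivity),
          Real.log_exp, Real.log_rpow (by norm_num)]
        rw [Real.log_div hc.ne' hb1.ne'] at h6
        nlinarith
      exact (Real.log_le_log_iff hb1 (by positivity)).1 h7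
    rw [eb]
    exact goal'

end Pool.Agent.Helper75.KM
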