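import Pool.Agent.Helper75.KM.StmtsC

/-!
# KM: measurability of the Kakeya maximal function
-/

set_option autoImplicit false

namespace Pool.Agent.Helper75.KM

open MeasureTheory Filter Topology
open scoped ENNReal

/-- the tubes form a closed set -/
theorem meas_closed {n : ℕ} (δ : ℝ) :
    IsClosed {q : (EE n × EE n) × EE n | q.2 ∈ tube δ q.1.1 q.1.2} := by
  have h : {q : (EE n × EE n) × EE n | q.2 ∈ tube δ q.1.1 q.1.2} =
      Prod.snd '' {z : (Set.Icc (-(1 / 2) : ℝ) (1 / 2)) × ((EE n × EE n) × EE n) |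
        ‖z.2.2 - (z.2.1.1 + (z.1 : ℝ) • z.2.1.2)‖ ≤ δ} := by
    ext q
    simp only [Set.mem_ofPred_eq, Set.mem_image]
    constructor
    · rintro ⟨s, hs, h⟩
      exact ⟨(⟨s, abs_le.1 hs⟩, q), h, rfl⟩
    · rintro ⟨z, hz, rfl⟩
      exact ⟨z.1, abs_le.2 z.1.2, hz⟩
  rw [h]
  refine isClosedMap_snd_of_compactSpace _ ?_
  exact isClosed_le (by fun_prop) continuous_const

theorem meas_tube_closed {n : ℕ} (δ : ℝ) (a ω : EE n) : IsClosed (tube δ a ω) :=
  (meas_closed (n := n) δ).preimage (f := fun y : EE n => ((a, ω), y)) (by fun_prop)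

theorem meas_convex {n : ℕ} (δ : ℝ) (a ω : EE n) : Convex ℝ (tube δ a ω) := by
  rintro y ⟨s, hs, hy⟩ z ⟨t, ht, hz⟩ u v hu hv huv
  refine ⟨u * s + v * t, ?_, ?_⟩
  · calc |u * s + v * t| ≤ |u * s| + |v * t| := abs_add_le _ _
      _ = u * |s| + v * |t| := by rw [abs_mul, abs_mul, abs_of_nonneg hu, abs_of_nonneg hv]
      _ ≤ u * (1 / 2) + v * (1 / 2) := by gcongr
      _ = 1 / 2 := by rw [← add_mul, huv, one_mul]
  · have e : u • y + v • z - (a + (u * s + v * t) • ω)
        = u • (y - (a + s • ω)) + v • (z - (a + t • ω)) := by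
      have h1 : a = u • a + v • a := by rw [← add_smul, huv, one_smul]
      nth_rewrite 1 [h1]
      module
    rw [e]
    calc ‖u • (y - (a + s • ω)) + v • (z - (a + t • ω))‖
        ≤ ‖u • (y - (a + s • ω))‖ + ‖v • (z - (a + t • ω))‖ := norm_add_le _ _
      _ = u * ‖y - (a + s • ω)‖ + v * ‖z - (a + t • ω)‖ := by
        rw [norm_smul, norm_smul, Real.norm_of_nonneg hu, Real.norm_of_nonneg hv]
      _ ≤ u * δ + v * δ := by gcongr
      _ = δ := by rw [← add_mul, huv, one_mul]

theorem meas_tube_add {n : ℕ} (δ : ℝ) (a ω y : EE n) : y ∈ tube δ a ω ↔ y - a ∈ tube δ 0 ω := by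
  unfold tube
  simp only [Set.mem_ofPred_eq]
  refine exists_congr fun s => and_congr_right fun _ => ?_
  have e : y - (a + s • ω) = y - a - (0 + s • ω) := by module
  rw [e]

/-- the integral over a tube is lower semicontinuous in the centre -/
theorem meas_lsc {n : ℕ} (δ : ℝ) (ω : EE n) (f : EE n → ℝ≥0∞) (hf : Measurable f) (a : EE n)
    (c : ℝ≥0∞) (hc : c < ∫⁻ y in tube δ a ω, f y) :
    ∀ᶠ a' in 𝓝 a, c < ∫⁻ y in tube δ a' ω, f y := by
  by_contra hcon
  rw [Filter.not_eventually] at hcon
  obtain ⟨b, hb1, hb2⟩ := Filter.exists_seq_forall_of_frequently hcon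
  have h1 : ∀ a, ∫⁻ y in tube δ a ω, f y
      = ∫⁻ y, (tube δ a ω).indicator f y := fun a =>
    (lintegral_indicator (meas_tube_closed δ a ω).measurableSet f).symm
  have h2 : ∫⁻ y in tube δ a ω, f y ≤ ∫⁻ y, liminf (fun k => (tube δ (b k) ω).indicator f y) atTop := by
    rw [h1]
    refine lintegral_mono_ae ?_
    have h3 : volume (frontier (tube δ a ω)) = 0 := (meas_convex δ a ω).addHaar_frontier volume
    have h4 : ∀ᵐ y ∂(volume : Measure (EE n)), y ∉ frontier (tube δ a ω) := by
      rw [ae_iff]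
      simpa using h3
    filter_upwards [h4] with y hy
    by_cases h5 : y ∈ tube δ a ω
    · have h6 : y ∈ interior (tube δ a ω) := by
        by_contra h7
        exact hy ⟨subset_closure h5, h7⟩
      have h8 : ∀ᶠ k in atTop, y ∈ tube δ (b k) ω := by
        have h9 : Tendsto (fun k => y - b k + a) atTop (𝓝 (y - a + a)) :=
          (tendsto_const_nhds.sub hb1).add tendsto_const_nhds
        rw [sub_add_cancel] at h9
        have h10 := h9.eventually (isOpen_interior.mem_nhds h6)
        filter_upwards [h10] with k hk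
        have h11 := (meas_tube_add δ a ω _).1 (interior_subset hk)
        rw [add_sub_cancel_right] at h11
        exact (meas_tube_add δ (b k) ω y).2 h11
      rw [Set.indicator_of_mem h5]
      refine le_liminf_of_le (by isBoundedDefault) ?_
      filter_upwards [h8] with k hk
      rw [Set.indicator_of_mem hk]
    · rw [Set.indicator_of_notMem h5]
      exact zero_le
  have h3 : ∫⁻ y, liminf (fun k => (tube δ (b k) ω).indicator f y) atTop
      ≤ liminf (fun k => ∫⁻ y, (tube δ (b k) ω).indicator f y) atTop :=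
    lintegral_liminf_le fun k => hf.indicator (meas_tube_closed δ (b k) ω).measurableSet
  have h4 : liminf (fun k => ∫⁻ y, (tube δ (b k) ω).indicator f y) atTop ≤ c := by
    refine liminf_le_of_le (by isBoundedDefault) ?_
    intro d hd
    obtain ⟨k, hk⟩ := hd.exists
    refine hk.trans ?_
    rw [← h1]
    exact not_lt.1 (hb2 k)
  exact absurd ((h2.trans h3).trans h4) (not_le.2 hc)

theorem meas_int {n : ℕ} (δ : ℝ) (a : EE n) (f : EE n → ℝ≥0∞) (hf : Measurable f) :
    Measurable (fun ω : EE n => ∫⁻ y in tube δ a ω, f y) := by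
  have h1 : (fun ω : EE n => ∫⁻ y in tube δ a ω, f y)
      = fun ω => ∫⁻ y, ({q : EE n × EE n | q.2 ∈ tube δ a q.1}.indicator (fun q => f q.2) (ω, y)) := by
    funext ω
    rw [← lintegral_indicator (meas_tube_closed δ a ω).measurableSet]
    rfl
  rw [h1]
  refine Measurable.lintegral_prod_right' (f := fun q : EE n × EE n =>
    {q : EE n × EE n | q.2 ∈ tube δ a q.1}.indicator (fun q => f q.2) q) ?_
  refine (hf.comp measurable_snd).indicator ?_
  have h2 : IsClosed {q : EE n × EE n | q.2 ∈ tube δ a q.1} :=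
    (meas_closed (n := n) δ).preimage (f := fun q : EE n × EE n => ((a, q.1), q.2)) (by fun_prop)
  exact h2.measurableSet

/-- the Kakeya maximal function is measurable -/
theorem meas_kak {n : ℕ} (δ : ℝ) (f : EE n → ℝ≥0∞) (hf : Measurable f) : Measurable (kak δ f) := by
  have hV : ∀ a ω : EE n, volume (tube δ a ω) = volume (tube δ 0 ω) := by
    intro a ω
    have e : tube δ a ω = (fun y => y - a) ⁻¹' tube δ 0 ω := by
      ext y
      exact meas_tube_add δ a ω y
    rw [e]
    have := (measurePreserving_sub_right (volume : Measure (EE n)) a).measure_preimage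
      (meas_tube_closed δ 0 ω).measurableSet.nullMeasurableSet
    exact this
  have e : kak δ f = fun ω => (volume (tube δ (0 : EE n) ω))⁻¹ *
      ⨆ k : ℕ, ∫⁻ y in tube δ (TopologicalSpace.denseSeq (EE n) k) ω, f y := by
    funext ω
    unfold kak
    simp only [hV]
    rw [← ENNReal.mul_iSup]
    congr 1
    refine le_antisymm ?_ ?_
    · refine iSup_le fun a => le_of_forall_lt fun c hc => ?_
      obtain ⟨k, hk⟩ := (TopologicalSpace.denseRange_denseSeq (EE n)).exists_mem_open
        isOpen_interior ⟨a, mem_interior_iff_mem_nhds.2 (meas_lsc δ ω f hf a c hc)⟩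
      have hk2 := interior_subset hk
      exact lt_of_lt_of_le hk2 (le_iSup (fun k : ℕ =>
        ∫⁻ y in tube δ (TopologicalSpace.denseSeq (EE n) k) ω, f y) k)
    · exact iSup_le fun k => le_iSup (fun a : EE n => ∫⁻ y in tube δ a ω, f y) _
  rw [e]
  refine Measurable.mul ?_ ?_
  · have h := meas_int δ (0 : EE n) (fun _ => 1) measurable_const
    have h2 : (fun ω : EE n => ∫⁻ _ in tube δ 0 ω, (1 : ℝ≥0∞)) = fun ω => volume (tube δ 0 ω) := by
      funext ω
      rw [setLIntegral_one]
    rw [h2] at h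
    exact h.inv
  · exact Measurable.iSup fun k => meas_int δ _ f hf

end Pool.Agent.Helper75.KM
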