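import Pool.Agent.Helper75.KM.Stmts

/-!
# KM: module NUM, the iteration
-/

set_option autoImplicit false

namespace Pool.Agent.Helper75.KM

open Pool.Agent.Helper8.Kak Pool.Agent.Helper89.KakGeo

theorem num_gg_nonneg {Ω : Type} [Fintype Ω] {p : Ω → ℝ} (hp : IsProb p) {L X : Type} {M : ℕ}
    (K : Setoid Ω) (l : Ω → L) (T : Ω → Fin M) (P : Ω → X) : 0 ≤ gg p K l T P := by
  unfold gg tt
  have h1 : Ent p (K ⊓ Setoid.ker T) ≤ Ent p (K ⊓ Setoid.ker T ⊓ Setoid.ker P) :=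
    Ent_mono hp inf_le_left
  have h2 := submod hp (Setoid.ker T) (Setoid.ker l) K
  have e1 : Setoid.ker T ⊓ (Setoid.ker l ⊓ K) = K ⊓ Setoid.ker l ⊓ Setoid.ker T := by
    rw [inf_comm (Setoid.ker l) K, inf_comm]
  have e2 : Setoid.ker T ⊓ K = K ⊓ Setoid.ker T := inf_comm _ _
  have e3 : Setoid.ker l ⊓ K = K ⊓ Setoid.ker l := inf_comm _ _
  rw [e1, e2, e3] at h2
  linarith

theorem num_mono {m : ℕ} {β β' : ℝ} (h : β ≤ β') (hM : TE m β) : TE m β' := by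
  intro ε D hε hD
  obtain ⟨C, hC⟩ := hM ε D hε hD
  refine ⟨C, fun N L x v hx hv Ω _ p hp K l T hT => ?_⟩
  have h1 := hC N L x v hx hv Ω p hp K l T hT
  have h2 := mul_le_mul_of_nonneg_right h
    (num_gg_nonneg hp K l T (fun ω => ptn N x v (l ω) (T ω)))
  linarith

theorem num_step (hK : ST_KT) (hU : ST_UNB) (hL : ST_LOCA) {m : ℕ} (hm : 25 ≤ m) {β β' : ℝ}
    (h1 : 1 < β) (h2 : β ≤ 2) (h3 : 1 ≤ β')
    (hc : β * (4 * β + 4) + (β - 1) * (4 * β + 6) + 3 * (β - 1) ^ 2 ≤ 25 * (β * (β - 1)))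
    (hf : 3 * β ^ 2 + 2 * β - 2 ≤ β' * (β ^ 2 + 3 * β - 2)) (hM : MX m β) : MX m β' := by
  have hm' : (25 : ℝ) ≤ m := by exact_mod_cast hm
  have h4 : 0 ≤ β * (β - 1) := mul_nonneg (by linarith) (by linarith)
  have h5 := hK m β h1 h2 (hc.trans (mul_le_mul_of_nonneg_right hm' h4)) hM
  have h6 : (3 * β ^ 2 + 2 * β - 2) / (β ^ 2 + 3 * β - 2) ≤ β' := by
    rw [div_le_iff₀ (by nlinarith)]
    exact hf
  exact hL m β' h3 (hU m β' h3 (num_mono h6 h5))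

theorem st_NUM (hK : ST_KT) (hB : ST_BASE) (hU : ST_UNB) (hL : ST_LOCA) : ST_NUM := by
  intro m hm
  have b0 : MX m 2 := hL m 2 (by norm_num) (hU m 2 (by norm_num) (hB m))
  have b1 : MX m 1.75 := by
    refine num_step hK hU hL hm ?_ ?_ ?_ ?_ ?_ b0 <;> norm_num
  have b2 : MX m 1.6931 := by
    refine num_step hK hU hL hm ?_ ?_ ?_ ?_ ?_ b1 <;> norm_num
  have b3 : MX m 1.6795 := by
    refine num_step hK hU hL hm ?_ ?_ ?_ ?_ ?_ b2 <;> norm_num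
  have b4 : MX m 1.6762 := by
    refine num_step hK hU hL hm ?_ ?_ ?_ ?_ ?_ b3 <;> norm_num
  have b5 : MX m 1.6754 := by
    refine num_step hK hU hL hm ?_ ?_ ?_ ?_ ?_ b4 <;> norm_num
  refine num_step hK hU hL hm ?_ ?_ ?_ ?_ ?_ b5 <;> norm_num

end Pool.Agent.Helper75.KM
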