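import Pool.Agent.Helper75.KM.Stmts

/-!
# KM: module RELAB, entropy change under relabelling
-/

set_option autoImplicit false

namespace Pool.Agent.Helper75.KM

open Pool.Agent.Helper8.Kak Pool.Agent.Helper89.KakGeo

theorem relab_cls_ge {Ω : Type} [Fintype Ω] {p : Ω → ℝ} (hp : ∀ ω, 0 ≤ p ω) (r : Setoid Ω)
    (ω : Ω) (S : Ω → Prop) [DecidablePred S] (h : ∀ ω', S ω' → r ω ω') :
    (∑ ω', if S ω' then p ω' else 0) ≤ cls p r ω := by
  unfold cls
  refine Finset.sum_le_sum fun ω' _ => ?_
  by_cases h1 : S ω'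
  · rw [if_pos h1, if_pos (h ω' h1)]
  · rw [if_neg h1]
    split_ifs
    exacts [hp _, le_rfl]

theorem st_RELAB : ST_RELAB := by
  classical
  intro Ω W _ p hp r X B w' ω0 b hb hb0 hB
  set R := r ⊓ Setoid.ker X with hR
  set R' := r ⊓ Setoid.ker (fun ω => if ω ∈ B then w' else X ω) with hR'
  set c0 := cls p R ω0 with hc0
  -- the complement of `B` in the class
  have hs3 : (∑ ω, if (R ω0 ω ∧ ω ∉ B) then p ω else 0) = c0 - b := by
    have e : c0 = ∑ ω, if R ω0 ω then p ω else 0 := by
      rw [hc0]
      unfold cls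
      refine Finset.sum_congr rfl fun ω _ => ?_
      by_cases h : R ω0 ω <;> simp [h]
    rw [e, hb, ← Finset.sum_sub_distrib]
    refine Finset.sum_congr rfl fun ω _ => ?_
    by_cases h1 : ω ∈ B
    · have h2 := hB ω h1
      rw [if_neg (fun h => h.2 h1), if_pos h2, if_pos h1, sub_self]
    · by_cases h2 : R ω0 ω
      · rw [if_pos ⟨h2, h1⟩, if_pos h2, if_neg h1, sub_zero]
      · rw [if_neg (fun h => h2 h.1), if_neg h2, if_neg h1, sub_zero]
  have hcb : 0 ≤ c0 - b := by
    rw [← hs3]
    refine Finset.sum_nonneg fun ω _ => ?_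
    split_ifs
    exacts [hp.1 _, le_rfl]
  have hc : 0 < c0 := by linarith
  -- pointwise bound
  have key : ∀ ω, p ω * (-Real.log (cls p R' ω)) ≤ p ω * (-Real.log (cls p R ω))
      + ((if ω ∈ B then p ω else 0) * Real.log (c0 / b)
        + (if (R ω0 ω ∧ ω ∉ B) then p ω else 0) * (b / (c0 - b))) := by
    intro ω
    rcases (hp.1 ω).eq_or_lt with h0 | h0
    · rw [← h0]; simp
    by_cases h1 : ω ∈ B
    · have h2 : cls p R ω = c0 := (cls_congr (hB ω h1)).symm
      have h3 : b ≤ cls p R' ω := by
        rw [hb]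
        refine relab_cls_ge hp.1 R' ω (fun ω' => ω' ∈ B) fun ω' h' => ⟨?_, ?_⟩
        · exact r.trans (r.symm (hB ω h1).1) (hB ω' h').1
        · show (if ω ∈ B then w' else X ω) = (if ω' ∈ B then w' else X ω')
          rw [if_pos h1, if_pos h']
      rw [if_pos h1, if_neg (fun h => h.2 h1), h2, Real.log_div hc.ne' hb0.ne']
      have h4 := Real.log_le_log hb0 h3
      nlinarith [mul_le_mul_of_nonneg_left h4 h0.le]
    · by_cases h2 : R ω0 ω
      · have h3 : cls p R ω = c0 := (cls_congr h2).symm
        have h4 : c0 - b ≤ cls p R' ω := by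
          rw [← hs3]
          refine relab_cls_ge hp.1 R' ω (fun ω' => R ω0 ω' ∧ ω' ∉ B) fun ω' h' => ⟨?_, ?_⟩
          · exact r.trans (r.symm h2.1) h'.1.1
          · show (if ω ∈ B then w' else X ω) = (if ω' ∈ B then w' else X ω')
            rw [if_neg h1, if_neg h'.2]
            have h5 : X ω0 = X ω := h2.2
            have h6 : X ω0 = X ω' := h'.1.2
            rw [← h5, h6]
        have h5 : p ω ≤ c0 - b := by
          rw [← hs3]
          have h6 := Finset.single_le_sum
            (f := fun ω => if (R ω0 ω ∧ ω ∉ B) then p ω else 0)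
            (fun i _ => by
              split_ifs
              exacts [hp.1 _, le_rfl]) (Finset.mem_univ ω)
          rwa [if_pos ⟨h2, h1⟩] at h6
        have h6 : 0 < c0 - b := by linarith
        rw [if_neg h1, if_pos ⟨h2, h1⟩, h3, zero_mul, zero_add]
        have h7 := Real.log_le_log h6 h4
        have h8 : Real.log c0 - Real.log (c0 - b) ≤ b / (c0 - b) := by
          rw [← Real.log_div hc.ne' h6.ne']
          have h9 := Real.log_le_sub_one_of_pos (show 0 < c0 / (c0 - b) by positivity)
          have e : c0 / (c0 - b) - 1 = b / (c0 - b) := by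
            field_simp
            ring
          rwa [e] at h9
        have h10 : -Real.log (cls p R' ω) ≤ -Real.log c0 + b / (c0 - b) := by linarith
        have h11 := mul_le_mul_of_nonneg_left h10 h0.le
        linarith
      · rw [if_neg h1, if_neg (fun h => h2 h.1), zero_mul, zero_mul, add_zero, add_zero]
        refine mul_le_mul_of_nonneg_left (neg_le_neg (Real.log_le_log (cls_pos hp.1 R h0) ?_)) h0.le
        have e : cls p R ω = ∑ ω', if R ω ω' then p ω' else 0 := by
          unfold cls
          refine Finset.sum_congr rfl fun ω' _ => ?_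
          by_cases h : R ω ω' <;> simp [h]
        rw [e]
        refine relab_cls_ge hp.1 R' ω (fun ω' => R ω ω') fun ω' h' => ⟨h'.1, ?_⟩
        have h3 : ω' ∉ B := fun h => h2 (R.trans (hB ω' h) (R.symm h'))
        show (if ω ∈ B then w' else X ω) = (if ω' ∈ B then w' else X ω')
        rw [if_neg h1, if_neg h3]
        exact h'.2
  have hsum := Finset.sum_le_sum fun ω (_ : ω ∈ (Finset.univ : Finset Ω)) => key ω
  rw [Finset.sum_add_distrib, Finset.sum_add_distrib, ← Finset.sum_mul, ← Finset.sum_mul, hs3] at hsum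
  have hbB : (∑ ω, if ω ∈ B then p ω else 0) = b := by
    rw [hb]
  rw [hbB] at hsum
  have h9 : (c0 - b) * (b / (c0 - b)) ≤ b := by
    rcases hcb.eq_or_lt with h | h
    · rw [← h]; simpa using hb0.le
    · rw [mul_div_cancel₀ _ h.ne']
  have e1 : Ent p R' = ∑ ω, p ω * (-Real.log (cls p R' ω)) := by
    unfold Ent
    rw [← Finset.sum_neg_distrib]
    exact Finset.sum_congr rfl fun _ _ => by ring
  have e2 : Ent p R = ∑ ω, p ω * (-Real.log (cls p R ω)) := by
    unfold Ent
    rw [← Finset.sum_neg_distrib]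
    exact Finset.sum_congr rfl fun _ _ => by ring
  have goal' : Ent p R' ≤ Ent p R + b * (Real.log (c0 / b) + 1) := by
    rw [e1, e2]
    linarith
  exact goal'

end Pool.Agent.Helper75.KM
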