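import Pool.Agent.Helper74.KM.LDP
import Pool.Agent.Helper30.KM.CST
import Pool.Agent.Helper11.KM.KT
import Pool.Agent.Helper74.KM.BASE
import Pool.Agent.Helper45.KM.UNB
import Pool.Agent.Helper75.KM.RELAB
import Pool.Agent.Helper75.KM.EXT
import Pool.Agent.Helper45.KM.CCJ
import Pool.Agent.Helper61.KM.COND
import Pool.Agent.Helper61.KM.LOC
import Pool.Agent.Helper74.KM.ACC
import Pool.Agent.Helper34.KM.LOCA
import Pool.Agent.Helper75.KM.NUM
import Pool.Agent.Helper52.KM.DISC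
import Pool.Agent.Helper67.KM.CARD
import Pool.Agent.Helper94.KM.STR
import Pool.Agent.Helper44.KM.STE
import Pool.Agent.Helper44.KM.JEN
import Pool.Agent.Helper25.KM.VOLT
import Pool.Agent.Helper61.KM.TUBE
import Pool.Agent.Helper41.KM.AVG
import Pool.Agent.Helper41.KM.SIG
import Pool.Agent.Helper99.KM.PAT
import Pool.Agent.Helper83.KM.FIN
import Pool.Agent.Helper75.KM.MEAS

/-!
# KM: assembly
-/

set_option autoImplicit false

namespace Pool.Agent.Helper75.KM

/-- the entropy inequality with exponent `1.6752` -/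
theorem mx_all (m : ℕ) (hm : 25 ≤ m) : MX m 1.6752 :=
  st_NUM (st_KT st_LDP st_CST) (st_BASE st_LDP) st_UNB
    (st_LOCA (st_EXT st_RELAB) st_CCJ st_COND st_LOC st_ACC) m hm

/-- the maximal inequality with `α = 1.6752` -/
theorem maxB_all (m : ℕ) (hm : 25 ≤ m) : MaxB m 1.6752 := by
  have h1 : (1 : ℝ) ≤ 1.6752 := by norm_num
  exact st_FIN (st_PAT st_JEN (st_AVG st_VOLT st_TUBE) st_SEL) st_SIG m 1.6752 h1
    (st_STE m 1.6752 h1 (st_STR st_CARD m 1.6752 h1 (st_DISC m 1.6752 h1 (mx_all m hm))))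

end Pool.Agent.Helper75.KM
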