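import Pool.Agent.Helper8.Kak.L1W

/-!
# The Kakeya maximal function: definitions of the entropy part

All entropies are those of `Pool.Agent.Helper8.Kak` (`Ent p r`, natural logarithm). The scale is
`δ = (1/2)^N`, `M = 2^N`. A line is `t ↦ x l + t v l` in `R^m`, `ptn N x v l t` is the cell of side
`(1/2)^N` of its point at height `t / 2^N`.
-/

set_option autoImplicit false

namespace Pool.Agent.Helper75.KM

open Pool.Agent.Helper8.Kak Pool.Agent.Helper89.KakGeo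

/-- the cell of the point of the line `l` at height `t / 2^N`, at scale `(1/2)^N` -/
noncomputable def ptn {m : ℕ} (N : ℕ) {L : Type} (x v : L → Fin m → ℝ) (l : L) (t : Fin (2 ^ N)) :
    Fin m → ℤ := cell ((1 / 2 : ℝ) ^ N) (pnt x v l t)

/-- the directions are bounded by one and in different cells of side `(1/2)^N` -/
def Dirs {m : ℕ} (N : ℕ) {L : Type} (v : L → Fin m → ℝ) : Prop :=
  (∀ l i, |v l i| ≤ 1) ∧ Function.Injective (fun l => cell ((1 / 2 : ℝ) ^ N) (v l))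

section ent

variable {Ω : Type} [Fintype Ω] {L X : Type} {M : ℕ}

/-- entropy of the line: `H(l | K)` -/
noncomputable def aa (p : Ω → ℝ) (K : Setoid Ω) (l : Ω → L) : ℝ :=
  Ent p (K ⊓ Setoid.ker l) - Ent p K

/-- entropy of the height on the line: `H(T | K, l)` -/
noncomputable def tt (p : Ω → ℝ) (K : Setoid Ω) (l : Ω → L) (T : Ω → Fin M) : ℝ :=
  Ent p (K ⊓ Setoid.ker l ⊓ Setoid.ker T) - Ent p (K ⊓ Setoid.ker l)

/-- `H(P, T | K) - H(T | K, l)` -/
noncomputable def gg (p : Ω → ℝ) (K : Setoid Ω) (l : Ω → L) (T : Ω → Fin M) (P : Ω → X) : ℝ :=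
  Ent p (K ⊓ Setoid.ker T ⊓ Setoid.ker P) - Ent p K - tt p K l T

open scoped Classical in
/-- two-ends condition: the conditional expectation, given the class of `(K, l)`, of the logarithm
of the inverse distance from `T` to any fixed height is at most `D` -/
def Conc (p : Ω → ℝ) (K : Setoid Ω) (l : Ω → L) (T : Ω → Fin M) (D : ℝ) : Prop :=
  ∀ ω, 0 < p ω → ∀ t : Fin M,
    (∑ ω', if (K ⊓ Setoid.ker l) ω ω' then p ω' * ld (T ω') t else 0)
      ≤ D * cls p (K ⊓ Setoid.ker l) ω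

end ent

/-- the inequality with `m κ` loss, for all systems -/
def MX (m : ℕ) (β : ℝ) : Prop :=
  ∀ ε : ℝ, 0 < ε → ∃ C : ℝ, ∀ (N : ℕ) (L : Type) (x v : L → Fin m → ℝ), Dirs N v →
    ∀ (Ω : Type) [Fintype Ω] (p : Ω → ℝ), IsProb p →
    ∀ (K : Setoid Ω) (l : Ω → L) (T : Ω → Fin (2 ^ N)),
      aa p K l ≤ β * gg p K l T (fun ω => ptn N x v (l ω) (T ω))
        + m * (N * Real.log 2 - tt p K l T) + ε * N + C

/-- the same for systems with the two-ends condition -/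
def TEU (m : ℕ) (α : ℝ) : Prop :=
  ∀ ε D : ℝ, 0 < ε → 0 ≤ D → ∃ C : ℝ, ∀ (N : ℕ) (L : Type) (x v : L → Fin m → ℝ), Dirs N v →
    ∀ (Ω : Type) [Fintype Ω] (p : Ω → ℝ), IsProb p →
    ∀ (K : Setoid Ω) (l : Ω → L) (T : Ω → Fin (2 ^ N)), Conc p K l T D →
      aa p K l ≤ α * gg p K l T (fun ω => ptn N x v (l ω) (T ω))
        + m * (N * Real.log 2 - tt p K l T) + ε * N + C

/-- the same for systems with the two-ends condition and bounded positions -/
def TE (m : ℕ) (α : ℝ) : Prop :=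
  ∀ ε D : ℝ, 0 < ε → 0 ≤ D → ∃ C : ℝ, ∀ (N : ℕ) (L : Type) (x v : L → Fin m → ℝ),
    (∀ l i, |x l i| ≤ 1) → Dirs N v →
    ∀ (Ω : Type) [Fintype Ω] (p : Ω → ℝ), IsProb p →
    ∀ (K : Setoid Ω) (l : Ω → L) (T : Ω → Fin (2 ^ N)), Conc p K l T D →
      aa p K l ≤ α * gg p K l T (fun ω => ptn N x v (l ω) (T ω))
        + m * (N * Real.log 2 - tt p K l T) + ε * N + C

/-- the six bounds for the distances of the heights in the glued space -/
structure LDB {m M : ℕ} {G : Geo m M} (S : Sys G) (D : ℝ) : Prop where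
  dS0 : Ex S.pY (fun y => ld (S.T (cS y)) (S.T (c0 y))) ≤ D
  dS1 : Ex S.pY (fun y => ld (S.T (cS y)) (S.T (cT y))) ≤ D
  dR0 : Ex S.pY (fun y => ld (S.T (cR y)) (S.T (c0 y))) ≤ D
  db1 : Ex S.pY (fun y => ld (S.T (cb' y)) (S.T (cT y))) ≤ D
  dbb : Ex S.pY (fun y => ld (S.T (cb' y)) (S.T (cb y))) ≤ D
  d10 : Ex S.pY (fun y => ld (S.T (cT y)) (S.T (c0 y))) ≤ D

/-- common bound for the costs -/
noncomputable def UU (m : ℕ) (D : ℝ) : ℝ := 34 * (m + 1) * (D + 1)

/-- the scale and the dyadic interval containing the height -/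
def QQ {N : ℕ} (j : Fin (N + 1)) (t : Fin (2 ^ N)) : ℕ × ℕ := ((j : ℕ), (t : ℕ) / 2 ^ (N - (j : ℕ)))

/-- the height inside the dyadic interval of length `2^(N-j)` that contains it -/
def locT {N : ℕ} (j : ℕ) (t : Fin (2 ^ N)) : Fin (2 ^ (N - j)) :=
  ⟨(t : ℕ) % 2 ^ (N - j), Nat.mod_lt _ (Nat.two_pow_pos _)⟩

/-- the residue of the direction cell modulo `2^j` -/
noncomputable def FF {m : ℕ} (N : ℕ) {L : Type} (v : L → Fin m → ℝ) (j : ℕ) (l : L) : Fin m → ℤ :=
  fun i => cell ((1 / 2 : ℝ) ^ N) (v l) i % 2 ^ j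

open scoped Classical in
/-- conditional probability given `Θ = θ` -/
noncomputable def cnd {Ω W : Type} [Fintype Ω] (p : Ω → ℝ) (Θ : Ω → W) (θ : W) : Ω → ℝ :=
  fun ω => if Θ ω = θ then p ω / law p Θ θ else 0

end Pool.Agent.Helper75.KM
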