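import Pool.Agent.Helper75.KM.Defs

/-!
# The Kakeya maximal function: statements of the modules

Part E (entropy): LDP CST KT BASE UNB RELAB EXT CCJ COND LOC ACC LOCA NUM.
Part D (discrete): DISC CARD STR STE.
Part C (continuous): JEN VOLT TUBE AVG SIG SEL PAT FIN.
-/

set_option autoImplicit false

namespace Pool.Agent.Helper75.KM

open Pool.Agent.Helper8.Kak Pool.Agent.Helper89.KakGeo

/-! ## Part E -/

/-- LDP: the two-ends condition gives the six distance bounds in the glued space -/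
def ST_LDP : Prop :=
  ∀ (m M : ℕ) (G : Geo m M) (S : Sys G) (D : ℝ), Conc S.p S.K S.l S.T D → LDB S D

/-- CST: the costs, from the distance bounds -/
def ST_CST : Prop :=
  ∀ (m M : ℕ) (G : Geo m M) (S : Sys G) (D : ℝ), 0 ≤ D → LDB S D →
    L1.Hyp S.pY S.V S.eK S.eL S.eB S.eT S.eP (Real.log M) S.Lam
      (UU m D) (UU m D) (UU m D) (UU m D) (UU m D) (UU m D) (UU m D) (UU m D) (UU m D)

/-- KT: the Katz-Tao step (hypotheses ST_LDP, ST_CST) -/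
def ST_KT : Prop :=
  ∀ (m : ℕ) (β : ℝ), 1 < β → β ≤ 2 →
    β * (4 * β + 4) + (β - 1) * (4 * β + 6) + 3 * (β - 1) ^ 2 ≤ m * (β * (β - 1)) →
    MX m β → TE m ((3 * β ^ 2 + 2 * β - 2) / (β ^ 2 + 3 * β - 2))

/-- BASE: the exponent two (hypothesis ST_LDP) -/
def ST_BASE : Prop := ∀ m : ℕ, TE m 2

/-- UNB: removing the bound on the positions -/
def ST_UNB : Prop := ∀ (m : ℕ) (α : ℝ), 1 ≤ α → TE m α → TEU m α

open scoped Classical in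
/-- RELAB: entropy change when the part `B` of one class receives a new label -/
def ST_RELAB : Prop :=
  ∀ (Ω W : Type) [Fintype Ω] (p : Ω → ℝ), IsProb p → ∀ (r : Setoid Ω) (X : Ω → W) (B : Set Ω)
    (w' : W) (ω0 : Ω) (b : ℝ), b = (∑ ω, if ω ∈ B then p ω else 0) → 0 < b →
    (∀ ω ∈ B, (r ⊓ Setoid.ker X) ω0 ω) →
      Ent p (r ⊓ Setoid.ker (fun ω => if ω ∈ B then w' else X ω))
        ≤ Ent p (r ⊓ Setoid.ker X) + b * (Real.log (cls p (r ⊓ Setoid.ker X) ω0 / b) + 1)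

open scoped Classical in
/-- EXT: the extremal choice of scales (hypothesis ST_RELAB) -/
def ST_EXT : Prop :=
  ∀ (Ω : Type) [Fintype Ω] (p : Ω → ℝ), IsProb p → ∀ (r : Setoid Ω) (N : ℕ)
    (T : Ω → Fin (2 ^ N)) (η : ℝ), 0 < η →
    ∃ J : Ω → Fin (N + 1),
      Ent p (r ⊓ Setoid.ker (fun ω => QQ (J ω) (T ω))) - Ent p r
        ≤ η * Real.log 2 * ∑ ω, p ω * ((J ω : ℕ) : ℝ) ∧
      ∀ ω0, 0 < p ω0 → ∀ s : ℕ, (J ω0 : ℕ) + s ≤ N → ∀ u : ℕ,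
        (∑ ω, if (r ⊓ Setoid.ker (fun ω => QQ (J ω) (T ω))) ω0 ω ∧
            (T ω : ℕ) / 2 ^ (N - ((J ω0 : ℕ) + s)) = u then p ω else 0)
          ≤ Real.exp 1 * (2 : ℝ) ^ (-(η * s)) *
            cls p (r ⊓ Setoid.ker (fun ω => QQ (J ω) (T ω))) ω0

/-- the constant of the two-ends condition -/
noncomputable def DD (η : ℝ) : ℝ := 1 + 3 * Real.exp 1 / (1 - (2 : ℝ) ^ (-η))

open scoped Classical in
/-- CCJ: weights that decay on dyadic intervals have bounded logarithmic energy -/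
def ST_CCJ : Prop :=
  ∀ (n : ℕ) (w : Fin (2 ^ n) → ℝ) (η W : ℝ), 0 < η → (∀ t, 0 ≤ w t) → (∑ t, w t) ≤ W →
    (∀ s : ℕ, s ≤ n → ∀ u : ℕ, (∑ t : Fin (2 ^ n), if (t : ℕ) / 2 ^ (n - s) = u then w t else 0)
      ≤ Real.exp 1 * (2 : ℝ) ^ (-(η * s)) * W) →
    ∀ t0 : Fin (2 ^ n), ∑ t, w t * ld t t0 ≤ DD η * W

/-- COND: conditioning on the value of `Θ` -/
def ST_COND : Prop :=
  ∀ (Ω W : Type) [Fintype Ω] (p : Ω → ℝ), IsProb p → ∀ (Θ : Ω → W) (r : Setoid Ω),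
    (∀ ω, 0 < p ω → IsProb (cnd p Θ (Θ ω))) ∧
    (∀ ω ω', 0 < p ω → (0 < cnd p Θ (Θ ω) ω' ↔ 0 < p ω' ∧ Θ ω' = Θ ω)) ∧
    (∀ ω ω', 0 < p ω → Θ ω' = Θ ω →
      cls (cnd p Θ (Θ ω)) r ω' = cls p (r ⊓ Setoid.ker Θ) ω' / law p Θ (Θ ω)) ∧
    ∑ ω, p ω * Ent (cnd p Θ (Θ ω)) r = Ent p (r ⊓ Setoid.ker Θ) - Ent p (Setoid.ker Θ)

/-- LOC: rescaling of a system living in one dyadic interval of heights and one residue class of
direction cells -/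
def ST_LOC : Prop :=
  ∀ (m : ℕ) (α : ℝ), TEU m α → ∀ ε D : ℝ, 0 < ε → 0 ≤ D → ∃ C : ℝ,
    ∀ (N : ℕ) (L : Type) (x v : L → Fin m → ℝ), Dirs N v →
    ∀ (Ω : Type) [Fintype Ω] (p : Ω → ℝ), IsProb p →
    ∀ (K : Setoid Ω) (l : Ω → L) (T : Ω → Fin (2 ^ N)) (j : ℕ), j ≤ N →
    ∀ (q : ℕ) (f : Fin m → ℤ),
      (∀ ω, 0 < p ω → (T ω : ℕ) / 2 ^ (N - j) = q) → (∀ ω, 0 < p ω → FF N v j (l ω) = f) →
      Conc p K l (fun ω => locT j (T ω)) D →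
      aa p K l ≤ α * gg p K l T (fun ω => ptn N x v (l ω) (T ω))
        + m * (((N : ℝ) - j) * Real.log 2 - tt p K l T) + ε * N + C

/-- ACC: bookkeeping of entropies in the localisation -/
def ST_ACC : Prop :=
  ∀ (Ω : Type) [Fintype Ω] (p : Ω → ℝ), IsProb p → ∀ (m N : ℕ) (L X : Type)
    (v : L → Fin m → ℝ) (K : Setoid Ω) (l : Ω → L) (T : Ω → Fin (2 ^ N)) (P : Ω → X)
    (J : Ω → Fin (N + 1)) (Q : Ω → ℕ × ℕ) (Θ : Ω → (ℕ × ℕ) × (Fin m → ℤ)) (α η E : ℝ),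
    1 ≤ α → 0 ≤ η → Q = (fun ω => QQ (J ω) (T ω)) → Θ = (fun ω => (Q ω, FF N v (J ω) (l ω))) →
    Ent p (K ⊓ Setoid.ker l ⊓ Setoid.ker Q) - Ent p (K ⊓ Setoid.ker l)
      ≤ η * Real.log 2 * ∑ ω, p ω * ((J ω : ℕ) : ℝ) →
    Ent p (K ⊓ Setoid.ker l ⊓ Setoid.ker Θ) - Ent p (K ⊓ Setoid.ker Θ)
      ≤ α * (Ent p (K ⊓ Setoid.ker T ⊓ Setoid.ker P ⊓ Setoid.ker Θ) - Ent p (K ⊓ Setoid.ker Θ)
          - (Ent p (K ⊓ Setoid.ker l ⊓ Setoid.ker T ⊓ Setoid.ker Θ)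
            - Ent p (K ⊓ Setoid.ker l ⊓ Setoid.ker Θ)))
        + m * ((N : ℝ) * Real.log 2 - (∑ ω, p ω * ((J ω : ℕ) : ℝ)) * Real.log 2
          - (Ent p (K ⊓ Setoid.ker l ⊓ Setoid.ker T ⊓ Setoid.ker Θ)
            - Ent p (K ⊓ Setoid.ker l ⊓ Setoid.ker Θ))) + E →
    aa p K l ≤ α * gg p K l T P + m * (N * Real.log 2 - tt p K l T)
      + α * Real.log ((N : ℝ) + 1) + m * η * Real.log 2 * N + E

/-- LOCA: the two-ends reduction (hypotheses ST_EXT, ST_CCJ, ST_COND, ST_LOC, ST_ACC) -/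
def ST_LOCA : Prop := ∀ (m : ℕ) (α : ℝ), 1 ≤ α → TEU m α → MX m α

/-- NUM: the iteration (hypotheses ST_KT, ST_BASE, ST_UNB, ST_LOCA) -/
def ST_NUM : Prop := ∀ m : ℕ, 25 ≤ m → MX m 1.6752

end Pool.Agent.Helper75.KM
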