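import Pool.Agent.Helper75.KM.Stmts

/-!
# The Kakeya maximal function: definitions and statements of parts D and C
-/

set_option autoImplicit false

namespace Pool.Agent.Helper75.KM

open Pool.Agent.Helper8.Kak Pool.Agent.Helper89.KakGeo
open MeasureTheory
open scoped ENNReal

/-! ## Part D: discrete maximal inequality -/

/-- the average of `φ` along the line `l` -/
noncomputable def av {m : ℕ} (N : ℕ) {L : Type} (x v : L → Fin m → ℝ)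
    (φ : (Fin m → ℤ) → Fin (2 ^ N) → ℝ) (l : L) : ℝ := (∑ t, φ (ptn N x v l t) t) / 2 ^ N

/-- cardinality bound for lines with large shadings -/
def DB (m : ℕ) (α : ℝ) : Prop :=
  ∀ ε : ℝ, 0 < ε → ∃ C : ℝ, 0 < C ∧ ∀ (N : ℕ) (L : Type) [Fintype L] (x v : L → Fin m → ℝ),
    Dirs N v → ∀ (lam : ℝ), 0 < lam → lam ≤ 1 → ∀ (Y : L → Finset (Fin (2 ^ N)))
      (E : Finset ((Fin m → ℤ) × Fin (2 ^ N))),
      (∀ l, lam * 2 ^ N ≤ ((Y l).card : ℝ)) → (∀ l, ∀ t ∈ Y l, (ptn N x v l t, t) ∈ E) →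
      (Fintype.card L : ℝ) ≤ C * Real.exp (ε * N) * ((E.card : ℝ) / 2 ^ N) ^ α
        * lam ^ (-((m : ℝ) + α))

/-- strong type bound, real form -/
def SB (m : ℕ) (α : ℝ) : Prop :=
  ∀ ε : ℝ, 0 < ε → ∃ C : ℝ, 0 < C ∧ ∀ (N : ℕ) (L : Type) [Fintype L] (x v : L → Fin m → ℝ),
    Dirs N v → ∀ (φ : (Fin m → ℤ) → Fin (2 ^ N) → ℝ) (E : Finset ((Fin m → ℤ) × Fin (2 ^ N))),
      (∀ c t, 0 ≤ φ c t) → (∀ l t, (ptn N x v l t, t) ∈ E) →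
      ∑ l, (av N x v φ l) ^ ((m : ℝ) + α) ≤
        C * Real.exp (ε * N) * ((∑ e ∈ E, φ e.1 e.2 ^ (1 + (m : ℝ) / α)) / 2 ^ N) ^ α

/-- strong type bound, for functions with values in `[0, ∞]` -/
def SE (m : ℕ) (α : ℝ) : Prop :=
  ∀ ε : ℝ, 0 < ε → ∃ C : ℝ, 0 < C ∧ ∀ (N : ℕ) (L : Type) [Fintype L] (x v : L → Fin m → ℝ),
    Dirs N v → ∀ φ : (Fin m → ℤ) → Fin (2 ^ N) → ℝ≥0∞,
      ∑ l, ((2 ^ N)⁻¹ * ∑ t, φ (ptn N x v l t) t) ^ ((m : ℝ) + α) ≤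
        ENNReal.ofReal (C * Real.exp (ε * N)) *
          ((2 ^ N)⁻¹ * ∑' c : Fin m → ℤ, ∑ t : Fin (2 ^ N), φ c t ^ (1 + (m : ℝ) / α)) ^ α

/-- DISC: from the entropy inequality to sets of lines -/
def ST_DISC : Prop := ∀ (m : ℕ) (α : ℝ), 1 ≤ α → MX m α → DB m α

/-- CARD: number of lines -/
def ST_CARD : Prop :=
  ∀ (m N : ℕ) (L : Type) [Fintype L] (v : L → Fin m → ℝ), Dirs N v →
    (Fintype.card L : ℝ) ≤ (3 * 2 ^ N) ^ m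

/-- STR: strong type from the cardinality bound (hypothesis ST_CARD) -/
def ST_STR : Prop := ∀ (m : ℕ) (α : ℝ), 1 ≤ α → DB m α → SB m α

/-- STE: from real to extended values -/
def ST_STE : Prop := ∀ (m : ℕ) (α : ℝ), 1 ≤ α → SB m α → SE m α

/-! ## Part C: the maximal function -/

/-- Euclidean space -/
abbrev EE (n : ℕ) : Type := EuclideanSpace ℝ (Fin n)

/-- the `δ`-tube around the unit segment with centre `a` and direction `ω` -/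
def tube {n : ℕ} (δ : ℝ) (a ω : EE n) : Set (EE n) :=
  {y | ∃ s : ℝ, |s| ≤ 1 / 2 ∧ ‖y - (a + s • ω)‖ ≤ δ}

/-- the Kakeya maximal function -/
noncomputable def kak {n : ℕ} (δ : ℝ) (f : EE n → ℝ≥0∞) (ω : EE n) : ℝ≥0∞ :=
  ⨆ a : EE n, (volume (tube δ a ω))⁻¹ * ∫⁻ y in tube δ a ω, f y

/-- the cube of side `(1/2)^N` with index `b` -/
def cube {n : ℕ} (N : ℕ) (b : Fin n → ℤ) : Set (EE n) := {y | ∀ k, ⌊y k * 2 ^ N⌋ = b k}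

/-- the average of `f` over a cube -/
noncomputable def psi {n : ℕ} (N : ℕ) (f : EE n → ℝ≥0∞) (b : Fin n → ℤ) : ℝ≥0∞ :=
  2 ^ (N * n) * ∫⁻ y in cube N b, f y

/-- the slopes of the direction `ω` with respect to the coordinate `i` -/
noncomputable def slope {m : ℕ} (ω : EE (m + 1)) (i : Fin (m + 1)) : Fin m → ℝ :=
  fun k => ω (i.succAbove k) / ω i

/-- the position at height `z` of the line through `a` with direction `ω` -/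
noncomputable def posn {m : ℕ} (a ω : EE (m + 1)) (i : Fin (m + 1)) (z : ℤ) : Fin m → ℝ :=
  fun k => a (i.succAbove k) + ((z : ℝ) - a i) * slope ω i k

/-- the unit directions for which the coordinate `i` is maximal and with slopes in the cell `u` -/
def patch {m : ℕ} (N : ℕ) (i : Fin (m + 1)) (u : Fin m → ℤ) : Set (EE (m + 1)) :=
  {ω | ‖ω‖ = 1 ∧ (∀ j, |ω j| ≤ |ω i|) ∧ ∀ k, ⌊slope ω i k * 2 ^ N⌋ = u k}

/-- the cube at slab `z`, height `t`, with the other coordinates `c` -/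
def idx {m : ℕ} (N : ℕ) (i : Fin (m + 1)) (z : ℤ) (t : Fin (2 ^ N)) (c : Fin m → ℤ) :
    Fin (m + 1) → ℤ :=
  @Fin.insertNth m (fun _ => ℤ) i (z * 2 ^ N + ((t : ℕ) : ℤ)) c

/-- JEN: Jensen on the cubes -/
def ST_JEN : Prop :=
  ∀ (n N : ℕ) (f : EE n → ℝ≥0∞) (d : ℝ), Measurable f → 1 ≤ d →
    ∑' b : Fin n → ℤ, psi N f b ^ d ≤ 2 ^ (N * n) * ∫⁻ y, f y ^ d

/-- VOLT: volume of a tube -/
def ST_VOLT : Prop :=
  ∀ m : ℕ, ∃ c : ℝ, 0 < c ∧ ∀ (δ : ℝ) (a ω : EE (m + 1)), 0 < δ → δ < 1 → ‖ω‖ = 1 →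
    ENNReal.ofReal (c * δ ^ m) ≤ volume (tube δ a ω)

/-- TUBE: cubes met by a tube -/
def ST_TUBE : Prop :=
  ∀ (m N : ℕ) (δ : ℝ), 0 < δ → δ < 1 → δ ≤ 2 * (1 / 2) ^ N →
    ∀ (i : Fin (m + 1)) (a ω : EE (m + 1)), ‖ω‖ = 1 → (∀ j, |ω j| ≤ |ω i|) →
    ∀ y ∈ tube δ a ω, ∀ (z : ℤ) (t : Fin (2 ^ N)), ⌊y i * 2 ^ N⌋ = z * 2 ^ N + ((t : ℕ) : ℤ) →
      |z - ⌊a i⌋| ≤ 2 ∧ ∀ k, |⌊y (i.succAbove k) * 2 ^ N⌋
        - ptn N (fun _ : Unit => posn a ω i z) (fun _ : Unit => slope ω i) () t k| ≤ 6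

/-- AVG: the average over a tube is controlled by averages along discrete lines
(hypotheses ST_VOLT, ST_TUBE) -/
def ST_AVG : Prop :=
  ∀ m : ℕ, ∃ C : ℝ, 0 < C ∧ ∀ (N : ℕ) (δ : ℝ), 0 < δ → δ < 1 → (1 / 2) ^ N ≤ δ →
    δ ≤ 2 * (1 / 2) ^ N → ∀ (f : EE (m + 1) → ℝ≥0∞) (i : Fin (m + 1)) (a ω : EE (m + 1)),
    ‖ω‖ = 1 → (∀ j, |ω j| ≤ |ω i|) →
      (volume (tube δ a ω))⁻¹ * ∫⁻ y in tube δ a ω, f y ≤
        ENNReal.ofReal C * ∑ z ∈ Finset.Icc (⌊a i⌋ - 2) (⌊a i⌋ + 2),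
          ∑ e ∈ Fintype.piFinset (fun _ : Fin m => Finset.Icc (-6 : ℤ) 6),
            (2 ^ N)⁻¹ * ∑ t : Fin (2 ^ N), psi N f (idx N i z t
              (ptn N (fun _ : Unit => posn a ω i z) (fun _ : Unit => slope ω i) () t + e))

/-- SIG: surface measure of a direction cell -/
def ST_SIG : Prop :=
  ∀ m : ℕ, ∃ C : ℝ, 0 < C ∧ ∀ (N : ℕ) (i : Fin (m + 1)) (u : Fin m → ℤ),
    (volume : Measure (EE (m + 1))).toSphere
      {w : Metric.sphere (0 : EE (m + 1)) 1 | (w : EE (m + 1)) ∈ patch N i u}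
      ≤ ENNReal.ofReal (C * ((1 / 2) ^ N) ^ m)

/-- SEL: independent suprema -/
def ST_SEL : Prop :=
  ∀ (ι : Type) [Fintype ι] (X : ι → Type) [∀ i, Nonempty (X i)] (F : ∀ i, X i → ℝ≥0∞) (q : ℝ)
    (B : ℝ≥0∞), 0 < q → (∀ s : ∀ i, X i, ∑ i, F i (s i) ^ q ≤ B) → ∑ i, (⨆ x, F i x) ^ q ≤ B

/-- PAT: the bound for the directions of one patch (hypotheses ST_JEN, ST_AVG, ST_SEL) -/
def ST_PAT : Prop :=
  ∀ (m : ℕ) (α : ℝ), 1 ≤ α → SE m α → ∀ ε : ℝ, 0 < ε → ∃ C : ℝ, 0 < C ∧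
    ∀ (N : ℕ) (δ : ℝ), 0 < δ → δ < 1 → (1 / 2) ^ N ≤ δ → δ ≤ 2 * (1 / 2) ^ N →
    ∀ f : EE (m + 1) → ℝ≥0∞, Measurable f → ∀ i : Fin (m + 1),
      ∑ u ∈ Fintype.piFinset (fun _ : Fin m => Finset.Icc (-(2 : ℤ) ^ N) (2 ^ N)),
        (⨆ ω ∈ patch N i u, kak δ f ω) ^ ((m : ℝ) + α) ≤
      ENNReal.ofReal (C * Real.exp (ε * N) * (2 : ℝ) ^ ((N : ℝ) * m * α)) *
        (∫⁻ y, f y ^ (1 + (m : ℝ) / α)) ^ α

/-- the maximal inequality `L^d → L^q`, `d = 1 + m / α`, `q = m + α`, in dimension `m + 1` -/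
def MaxB (m : ℕ) (α : ℝ) : Prop :=
  ∀ ε : ℝ, 0 < ε → ∃ C : ℝ, ∀ δ : ℝ, 0 < δ → δ < 1 → ∀ f : EE (m + 1) → ℝ≥0∞, Measurable f →
    (∫⁻ w : Metric.sphere (0 : EE (m + 1)) 1, kak δ f w ^ ((m : ℝ) + α)
      ∂((volume : Measure (EE (m + 1))).toSphere)) ^ (1 / ((m : ℝ) + α)) ≤
    ENNReal.ofReal (C * δ ^ (-((m : ℝ) * (α - 1) / (m + α)) - ε)) *
      (∫⁻ y, f y ^ (1 + (m : ℝ) / α)) ^ (1 / (1 + (m : ℝ) / α))

/-- FIN: the maximal inequality (hypotheses ST_PAT, ST_SIG) -/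
def ST_FIN : Prop := ∀ (m : ℕ) (α : ℝ), 1 ≤ α → SE m α → MaxB m α

end Pool.Agent.Helper75.KM
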